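import Pool.Agent.H81.WK.Defs

/-! Rich subspaces are fully divisible (`H81/WK/FD`). -/

set_option linter.unusedSectionVars false

open Module Submodule H15

namespace H7.WK

variable {ι : Type*} [Fintype ι] {E : Type*} [AddCommGroup E] [Module ℝ E]
  [FiniteDimensional ℝ E]

private theorem rich_step {v : ι → E} {F : Submodule ℝ E}
    (h : ∀ G : Submodule ℝ E, G < F →
      {i | v i ∈ G}.ncard + 2 * (finrank ℝ F + 1) ^ 2 ≤ {i | v i ∈ F}.ncard)
    {X Y : Set ι} (hs : SVec v X Y) (hF : ∀ i ∈ X ∪ Y, v i ∈ F) (hne : sp v X ≠ F)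
    (hu : (X ∪ Y).ncard ≤ 2 * finrank ℝ F * (finrank ℝ F + 1)) :
    ∃ X' Y' : Set ι, SVec v X' Y' ∧ (∀ i ∈ X' ∪ Y', v i ∈ F) ∧
      finrank ℝ (sp v X) + 1 ≤ finrank ℝ (sp v X') ∧
      finrank ℝ (sp v Y) ≤ finrank ℝ (sp v Y') ∧
      (X' ∪ Y').ncard ≤ (X ∪ Y).ncard + (finrank ℝ F + 1) := by
  classical
  have hle : sp v X ≤ F := sp_le.2 fun i hi => hF i (Or.inl hi)
  have hlt : sp v X < F := lt_of_le_of_ne hle hne
  have h1 := h _ hlt
  set U : Set ι := {i | v i ∈ F} \ ({i | v i ∈ sp v X} ∪ (X ∪ Y)) with hU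
  have hcard : finrank ℝ F + 1 ≤ U.ncard := by
    have h2 := Set.ncard_le_ncard_sdiff_add_ncard {i | v i ∈ F} ({i | v i ∈ sp v X} ∪ (X ∪ Y))
      (Set.toFinite _)
    have h3 := Set.ncard_union_le {i | v i ∈ sp v X} (X ∪ Y)
    nlinarith
  obtain ⟨t, htU, htc⟩ := Set.exists_subset_card_eq hcard
  have hdep : ¬ LinearIndepOn ℝ v t := by
    intro hli
    have h2 := finrank_sp_eq hli
    have h3 : sp v t ≤ F := sp_le.2 fun i hi => (htU hi).1
    have h4 := Submodule.finrank_mono h3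
    omega
  rw [linInd_iff] at hdep
  push Not at hdep
  obtain ⟨g0, hg0, hgs0, i0, hi0⟩ := hdep
  obtain ⟨g, hg, hgs, i1, hi1⟩ : ∃ g : ι → ℝ, (∀ i, i ∉ t → g i = 0) ∧ ∑ i, g i • v i = 0 ∧
      ∃ i, 0 < g i := by
    rcases lt_or_gt_of_ne hi0 with h2 | h2
    · exact ⟨fun i => - g0 i, fun i hi => by simp [hg0 i hi], by simp [hgs0], i0, by simpa using h2⟩
    · exact ⟨g0, hg0, hgs0, i0, h2⟩
  have hi1t : i1 ∈ t := by
    by_contra hc
    exact hi1.ne' (hg i1 hc)
  have hsv := hs.ext g (by rw [hgs]; exact zero_mem _)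
  have hsubX : {i | 0 < g i ∧ i ∉ Y} ⊆ t := by
    intro i hi
    by_contra hc
    exact hi.1.ne' (hg i hc)
  have hsubY : {i | g i < 0 ∧ i ∉ X} ⊆ t := by
    intro i hi
    by_contra hc
    exact hi.1.ne (hg i hc)
  have hsub : (X ∪ {i | 0 < g i ∧ i ∉ Y}) ∪ (Y ∪ {i | g i < 0 ∧ i ∉ X}) ⊆ (X ∪ Y) ∪ t := by
    rintro i ((hi | hi) | (hi | hi))
    · exact Or.inl (Or.inl hi)
    · exact Or.inr (hsubX hi)
    · exact Or.inl (Or.inr hi)
    · exact Or.inr (hsubY hi)
  refine ⟨_, _, hsv, ?_, ?_, Submodule.finrank_mono (sp_mono Set.subset_union_left), ?_⟩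
  · intro i hi
    rcases hsub hi with h2 | h2
    · exact hF i h2
    · exact (htU h2).1
  · have h2 : i1 ∉ Y := fun hc => (htU hi1t).2 (Or.inr (Or.inr hc))
    have h3 : v i1 ∉ sp v X := fun hc => (htU hi1t).2 (Or.inl hc)
    rw [← finrank_sp_insert h3]
    refine Submodule.finrank_mono (sp_mono ?_)
    intro i hi
    rcases hi with rfl | hi
    · exact Or.inr ⟨hi1, h2⟩
    · exact Or.inl hi
  · refine (Set.ncard_le_ncard hsub (Set.toFinite _)).trans ?_
    refine (Set.ncard_union_le _ _).trans ?_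
    omega

/-- **FD**: if every proper subspace of `F` misses at least `2 (f+1)^2` elements of `F` then `F` is
fully divisible. -/
theorem fullyDiv_of_rich {v : ι → E} {F : Submodule ℝ E}
    (h : ∀ G : Submodule ℝ E, G < F →
      {i | v i ∈ G}.ncard + 2 * (finrank ℝ F + 1) ^ 2 ≤ {i | v i ∈ F}.ncard) :
    FullyDiv v F := by
  classical
  set f := finrank ℝ F with hf
  have main : ∀ n : ℕ, ∀ X Y : Set ι, SVec v X Y → (∀ i ∈ X ∪ Y, v i ∈ F) →
      2 * f ≤ finrank ℝ (sp v X) + finrank ℝ (sp v Y) + n →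
      (X ∪ Y).ncard + n * (f + 1) ≤ 2 * f * (f + 1) → FullyDiv v F := by
    intro n
    induction n with
    | zero =>
      intro X Y hs hF h1 _
      have h2 : sp v X ≤ F := sp_le.2 fun i hi => hF i (Or.inl hi)
      have h3 : sp v Y ≤ F := sp_le.2 fun i hi => hF i (Or.inr hi)
      have h4 := Submodule.finrank_mono h2
      have h5 := Submodule.finrank_mono h3
      exact ⟨X, Y, hs, Submodule.eq_of_le_of_finrank_eq h2 (by omega),
        Submodule.eq_of_le_of_finrank_eq h3 (by omega)⟩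
    | succ n ih =>
      intro X Y hs hF h1 h2
      have h6 : (X ∪ Y).ncard + (f + 1) + n * (f + 1) ≤ 2 * f * (f + 1) := by
        have : (n + 1) * (f + 1) = n * (f + 1) + (f + 1) := by ring
        omega
      have h7 : (X ∪ Y).ncard ≤ 2 * finrank ℝ F * (finrank ℝ F + 1) := by
        change (X ∪ Y).ncard ≤ 2 * f * (f + 1)
        omega
      have h8 : (Y ∪ X).ncard ≤ 2 * finrank ℝ F * (finrank ℝ F + 1) := by
        rw [Set.union_comm]; exact h7
      by_cases hX : sp v X = F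
      · by_cases hY : sp v Y = F
        · exact ⟨X, Y, hs, hX, hY⟩
        · obtain ⟨X', Y', g1, g2, g3, g4, g5⟩ := rich_step h hs.symm
            (fun i hi => hF i (Set.union_comm X Y ▸ hi)) hY
            h8
          rw [Set.union_comm Y X] at g5
          exact ih X' Y' g1 g2 (by omega) (by omega)
      · obtain ⟨X', Y', g1, g2, g3, g4, g5⟩ := rich_step h hs hF hX h7
        exact ih X' Y' g1 g2 (by omega) (by omega)
  refine main (2 * f) ∅ ∅ svec_empty (by simp) (by omega) (by simp)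

end H7.WK
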